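import Pool.Agent.Q269.GT.Stm

set_option autoImplicit false
set_option linter.all false

namespace Pool.Agent.Q24.GT

open Pool.Agent.Q269.GT Finset Polynomial Module
open Pool.Agent.Y164.HG (F2)

section

variable {Ω : Type} [Field Ω] [Algebra F2 Ω] [CharP Ω 2] {m : ℕ} {ξ : Ω}

/-- the elements -/
def bb (ξ : Ω) (n : ℕ) : Ω := ξ ^ n + ξ⁻¹ ^ n

theorem bb_zero : bb ξ 0 = 0 := by
  unfold bb
  rw [pow_zero, pow_zero]
  exact CharTwo.add_self_eq_zero 1

theorem inv_pow_m (h : ξ ^ m = 1) : ξ⁻¹ ^ m = 1 := by rw [inv_pow, h, inv_one]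

theorem ne0 (hm : m ≠ 0) (h : ξ ^ m = 1) : ξ ≠ 0 := by
  rintro rfl
  rw [zero_pow hm] at h
  exact zero_ne_one h

theorem bb_mod (h : ξ ^ m = 1) (n : ℕ) : bb ξ (n % m) = bb ξ n := by
  unfold bb
  rw [← pow_eq_pow_mod n h, ← pow_eq_pow_mod n (inv_pow_m h)]

theorem pow_sub_m (hm : m ≠ 0) (h : ξ ^ m = 1) {i : ℕ} (hi : i ≤ m) : ξ ^ (m - i) = ξ⁻¹ ^ i := by
  have h0 := ne0 hm h
  rw [inv_pow]
  refine eq_inv_of_mul_eq_one_left ?_
  rw [← pow_add, Nat.sub_add_cancel hi, h]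

theorem bb_sub (hm : m ≠ 0) (h : ξ ^ m = 1) {i : ℕ} (hi : i ≤ m) : bb ξ (m - i) = bb ξ i := by
  unfold bb
  rw [pow_sub_m hm h hi]
  have h1 := pow_sub_m hm (inv_pow_m h) hi
  rw [inv_inv] at h1
  rw [h1, add_comm]

/-- the span -/
def YY (ξ : Ω) (m : ℕ) : Submodule F2 Ω :=
  Submodule.span F2 ((fun i : ℕ => ξ ^ i + ξ ^ (m - i)) '' Set.Icc 1 ((m - 1) / 2))

theorem bb_mem (hm : Odd m) (h : ξ ^ m = 1) (n : ℕ) : bb ξ n ∈ YY ξ m := by
  have hm0 : m ≠ 0 := by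
    rintro rfl
    exact absurd hm (by decide)
  have key : ∀ i ∈ Set.Icc 1 ((m - 1) / 2), bb ξ i ∈ YY ξ m := by
    intro i hi
    refine Submodule.subset_span ⟨i, hi, ?_⟩
    show ξ ^ i + ξ ^ (m - i) = ξ ^ i + ξ⁻¹ ^ i
    rw [pow_sub_m hm0 h (by have := hi.2; omega)]
  rw [← bb_mod h]
  have h1 : n % m < m := Nat.mod_lt _ (Nat.pos_of_ne_zero hm0)
  rcases Nat.eq_zero_or_pos (n % m) with h2 | h2
  · rw [h2, bb_zero]
    exact Submodule.zero_mem _
  · by_cases h3 : n % m ≤ (m - 1) / 2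
    · exact key _ ⟨h2, h3⟩
    · rw [← bb_sub hm0 h h1.le]
      refine key _ ⟨by omega, ?_⟩
      obtain ⟨k, hk⟩ := hm
      omega

theorem one_mem (hm : Odd m) (h : ξ ^ m = 1) (h1 : ξ ≠ 1) : (1 : Ω) ∈ YY ξ m := by
  obtain ⟨M, hM⟩ := hm
  have hm0 : m ≠ 0 := by omega
  have h2 : ∑ n ∈ range m, ξ ^ n = 0 := by
    have h3 := mul_geom_sum ξ m
    rw [h, sub_self] at h3
    exact (mul_eq_zero.1 h3).resolve_left (sub_ne_zero.2 h1)
  have h3 : ∑ n ∈ range m, ξ ^ n = ∑ n ∈ range M, bb ξ (n + 1) + 1 := by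
    have e1 : m = (M + 1) + M := by omega
    rw [e1, Finset.sum_range_add, Finset.sum_range_succ', pow_zero, ← Finset.sum_range_reflect
      (fun x => ξ ^ (M + 1 + x)), add_right_comm, ← sum_add_distrib]
    congr 1
    refine sum_congr rfl fun n hn => ?_
    rw [mem_range] at hn
    unfold bb
    congr 1
    rw [← pow_sub_m hm0 h (by omega)]
    congr 1
    omega
  rw [h2] at h3
  have h4 : (1 : Ω) = ∑ n ∈ range M, bb ξ (n + 1) := by
    have h5 := CharTwo.add_self_eq_zero (1 : Ω)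
    rw [h3] at h5
    exact (add_right_cancel h5)
  rw [h4]
  exact Submodule.sum_mem _ fun n _ => bb_mem ⟨M, hM⟩ h _

theorem mul_mem' (hm : Odd m) (h : ξ ^ m = 1) {y : Ω} (hy : y ∈ YY ξ m) : bb ξ 1 * y ∈ YY ξ m := by
  have hm0 : m ≠ 0 := by
    rintro rfl
    exact absurd hm (by decide)
  have h0 := ne0 hm0 h
  unfold YY at hy
  induction hy using Submodule.span_induction with
  | mem x hx =>
    obtain ⟨i, hi, rfl⟩ := hx
    have e1 : (fun i : ℕ => ξ ^ i + ξ ^ (m - i)) i = bb ξ i := by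
      show ξ ^ i + ξ ^ (m - i) = ξ ^ i + ξ⁻¹ ^ i
      rw [pow_sub_m hm0 h (by have := hi.2; omega)]
    rw [e1]
    have e2 : bb ξ 1 * bb ξ i = bb ξ (i + 1) + bb ξ (i - 1) := by
      obtain ⟨j, rfl⟩ : ∃ j, i = j + 1 := ⟨i - 1, by have := hi.1; omega⟩
      unfold bb
      rw [Nat.add_sub_cancel]
      have h5 : ξ * ξ⁻¹ = 1 := mul_inv_cancel₀ h0
      linear_combination (ξ ^ j + ξ⁻¹ ^ j) * h5
    rw [e2]
    exact Submodule.add_mem _ (bb_mem hm h _) (bb_mem hm h _)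
  | zero => rw [mul_zero]; exact Submodule.zero_mem _
  | add x y _ _ hx hy => rw [mul_add]; exact Submodule.add_mem _ hx hy
  | smul a x _ hx => rw [mul_smul_comm]; exact Submodule.smul_mem _ a hx

theorem pow_mem' (hm : Odd m) (h : ξ ^ m = 1) (h1 : ξ ≠ 1) (n : ℕ) :
    ∃ y ∈ YY ξ m, ∃ y' ∈ YY ξ m, ξ ^ n = y + ξ * y' := by
  have hm0 : m ≠ 0 := by
    rintro rfl
    exact absurd hm (by decide)
  have h0 := ne0 hm0 h
  induction n with
  | zero => exact ⟨1, one_mem hm h h1, 0, Submodule.zero_mem _, by ring⟩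
  | succ n ih =>
    obtain ⟨y, hy, y', hy', e⟩ := ih
    refine ⟨y', hy', y + bb ξ 1 * y', Submodule.add_mem _ hy (mul_mem' hm h hy'), ?_⟩
    rw [pow_succ, e]
    have h5 : ξ * ξ⁻¹ = 1 := mul_inv_cancel₀ h0
    have h6 := CharTwo.add_self_eq_zero y'
    unfold bb
    linear_combination (-y') * h5 - h6

instance finY : Finite (YY ξ m) := by
  have : (((fun i : ℕ => ξ ^ i + ξ ^ (m - i)) '' Set.Icc 1 ((m - 1) / 2))).Finite :=
    (Set.finite_Icc _ _).image _
  haveI : Module.Finite F2 (YY ξ m) := FiniteDimensional.span_of_finite F2 this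
  exact Module.finite_of_finite F2

theorem card_le (hm : Odd m) (h : ξ ^ m = 1) (h1 : ξ ≠ 1) :
    2 ^ (minpoly F2 ξ).natDegree ≤ (Nat.card (YY ξ m)) ^ 2 := by
  let Z : Submodule F2 Ω := YY ξ m ⊔ (YY ξ m).map (LinearMap.mulLeft F2 ξ)
  have hZ : ∀ n, ξ ^ n ∈ Z := by
    intro n
    obtain ⟨y, hy, y', hy', e⟩ := pow_mem' hm h h1 n
    rw [e]
    exact Submodule.add_mem_sup hy ⟨y', hy', rfl⟩
  let f : YY ξ m × YY ξ m → Z := fun x => ⟨x.1 + ξ * x.2, Submodule.add_mem_sup x.1.2 ⟨x.2, x.2.2, rfl⟩⟩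
  have hf : Function.Surjective f := by
    rintro ⟨z, hz⟩
    obtain ⟨y, hy, y', ⟨y'', hy'', rfl⟩, rfl⟩ := Submodule.mem_sup.1 hz
    exact ⟨(⟨y, hy⟩, ⟨y'', hy''⟩), rfl⟩
  haveI : Finite Z := Finite.of_surjective f hf
  have h2 := Nat.card_le_card_of_surjective f hf
  rw [Nat.card_prod, ← sq] at h2
  refine le_trans ?_ h2
  haveI : Module.Finite F2 Z := Module.Finite.of_finite
  rw [Module.natCard_eq_pow_finrank (K := F2), Nat.card_zmod]
  refine Nat.pow_le_pow_right (by norm_num) ?_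
  have h3 := linearIndependent_pow (K := F2) ξ
  have h4 : LinearIndependent F2 (fun i : Fin (minpoly F2 ξ).natDegree => (⟨ξ ^ (i : ℕ), hZ i⟩ : Z)) := by
    refine LinearIndependent.of_comp Z.subtype ?_
    exact h3
  have h5 := h4.fintype_card_le_finrank
  rwa [Fintype.card_fin] at h5

end

theorem t_SPN : S_SPN := by
  intro m hmp hm ξ h h1
  have hchar : CharP (AlgebraicClosure F2) 2 := charP_of_injective_algebraMap
    (algebraMap F2 (AlgebraicClosure F2)).injective 2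
  refine le_trans ?_ (card_le hm h h1)
  refine Nat.pow_le_pow_right (by norm_num) ?_
  have hint : IsIntegral F2 ξ := Algebra.IsIntegral.isIntegral ξ
  have hfr := IntermediateField.adjoin.finrank hint
  haveI : FiniteDimensional F2 (IntermediateField.adjoin F2 {ξ}) :=
    IntermediateField.adjoin.finiteDimensional hint
  haveI : Finite (IntermediateField.adjoin F2 {ξ}) := Module.finite_of_finite F2
  haveI : Fintype (IntermediateField.adjoin F2 {ξ}) := Fintype.ofFinite _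
  have hcard : Fintype.card (IntermediateField.adjoin F2 {ξ}) = 2 ^ (minpoly F2 ξ).natDegree := by
    rw [← Nat.card_eq_fintype_card, Module.natCard_eq_pow_finrank (K := F2), Nat.card_zmod, hfr]
  have h2 := FiniteField.pow_card (IntermediateField.AdjoinSimple.gen F2 ξ)
  rw [hcard] at h2
  have h3 : ξ ^ (2 ^ (minpoly F2 ξ).natDegree) = ξ := by
    have := congrArg (fun x : IntermediateField.adjoin F2 {ξ} => (x : AlgebraicClosure F2)) h2
    simpa using this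
  have h0 : ξ ≠ 0 := ne0 hmp.ne_zero h
  have h4 : ξ ^ (2 ^ (minpoly F2 ξ).natDegree - 1) = 1 := by
    have h5 : ξ ^ (2 ^ (minpoly F2 ξ).natDegree - 1) * ξ = 1 * ξ := by
      rw [← pow_succ, Nat.sub_add_cancel Nat.one_le_two_pow, h3, one_mul]
    exact mul_right_cancel₀ h0 h5
  have h5 : orderOf ξ = m := by
    haveI : Fact m.Prime := ⟨hmp⟩
    exact orderOf_eq_prime h h1
  have h6 : m ∣ 2 ^ (minpoly F2 ξ).natDegree - 1 := by
    rw [← h5]
    exact orderOf_dvd_of_pow_eq_one h4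
  have h7 : (2 : ZMod m) ^ (minpoly F2 ξ).natDegree = 1 := by
    have h8 := (ZMod.natCast_eq_zero_iff _ _).2 h6
    rw [Nat.cast_sub Nat.one_le_two_pow] at h8
    push_cast at h8
    exact sub_eq_zero.1 h8
  exact Nat.le_of_dvd (minpoly.natDegree_pos hint) (orderOf_dvd_of_pow_eq_one h7)

end Pool.Agent.Q24.GT
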