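import Pool.Agent.Q269.GT.Stm

set_option autoImplicit false
set_option linter.all false

namespace Pool.Agent.Q24.GT

open Pool.Agent.Q269.GT Finset Polynomial Module
open Pool.Agent.Y164.HG (F2 W_add_self)
open scoped TensorProduct

section

variable {Ω : Type} [Field Ω] [Algebra F2 Ω] {W : Type} [AddCommGroup W] [Module F2 W] {m : ℕ} [NeZero m]

/-- the power -/
def ee (ξ : Ω) (i : ZMod m) : Ω := ξ ^ i.val

theorem ee_add {ξ : Ω} (h : ξ ^ m = 1) (i j : ZMod m) : ee ξ (i + j) = ee ξ i * ee ξ j := by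
  unfold ee
  rw [ZMod.val_add, ← pow_add, ← pow_eq_pow_mod _ h]

theorem ee_zero {ξ : Ω} : ee ξ (0 : ZMod m) = 1 := by
  unfold ee
  rw [ZMod.val_zero, pow_zero]

/-- the transform -/
noncomputable def wh (w : ZMod m → W) (ξ : Ω) : Ω ⊗[F2] W := ∑ i, ee ξ i ⊗ₜ[F2] w i

theorem fourier {ξ : Ω} (h : ξ ^ m = 1) (s : ZMod m → F2) (hs : ∀ i, s (-i) = s i) (Cc : W →ₗ[F2] W)
    (w : ZMod m → W) (hw : ∀ i, ∑ j, s (j - i) • (w j + w i) + Cc (w i) = 0) :
    Cc.baseChange Ω (wh w ξ) = (∑ j : ZMod m, algebraMap F2 Ω (s j) * (ξ ^ j.val + 1)) • wh w ξ := by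
  have h1 : ∀ i, Cc (w i) = ∑ j, s (j - i) • (w j + w i) := by
    intro i
    have h2 := W_add_self (Cc (w i))
    have h3 := hw i
    rw [← h2] at h3
    exact (add_right_cancel h3).symm
  unfold wh
  rw [map_sum]
  simp only [LinearMap.baseChange_tmul, h1, TensorProduct.tmul_sum, TensorProduct.tmul_smul,
    TensorProduct.tmul_add, smul_add, sum_add_distrib]
  have h2 : ∑ i : ZMod m, ∑ j, s (j - i) • (ee ξ i ⊗ₜ[F2] w j) =
      (∑ l : ZMod m, algebraMap F2 Ω (s l) * ee ξ l) • ∑ j, ee ξ j ⊗ₜ[F2] w j := by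
    rw [sum_comm, smul_sum]
    refine sum_congr rfl fun j _ => ?_
    rw [← Equiv.sum_comp (Equiv.addLeft j), sum_smul]
    refine sum_congr rfl fun l _ => ?_
    show s (j - (j + l)) • (ee ξ (j + l) ⊗ₜ[F2] w j) = (algebraMap F2 Ω (s l) * ee ξ l) •
      (ee ξ j ⊗ₜ[F2] w j)
    rw [sub_add_cancel_left, hs, mul_smul, algebraMap_smul]
    congr 1
    rw [TensorProduct.smul_tmul', smul_eq_mul, ← ee_add h, add_comm]
  have h3 : ∑ i : ZMod m, ∑ j, s (j - i) • (ee ξ i ⊗ₜ[F2] w i) =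
      (∑ l : ZMod m, algebraMap F2 Ω (s l)) • ∑ j, ee ξ j ⊗ₜ[F2] w j := by
    rw [smul_sum]
    refine sum_congr rfl fun i _ => ?_
    rw [← Equiv.sum_comp (Equiv.addRight i), sum_smul]
    refine sum_congr rfl fun l _ => ?_
    rw [Equiv.coe_addRight, add_sub_cancel_right, algebraMap_smul]
  rw [h2, h3, ← add_smul, ← sum_add_distrib]
  congr 1
  refine sum_congr rfl fun l _ => ?_
  unfold ee
  ring

theorem pairing {φ : W →ₗ[F2] F2} (ζ : Ω) (w : ZMod m → W) (ξ : Ω) (h : wh w ξ = 0) :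
    ∑ i, ee ξ i * algebraMap F2 Ω (φ (w i)) = 0 := by
  have h1 := congrArg ((TensorProduct.rid F2 Ω).toLinearMap ∘ₗ (LinearMap.lTensor Ω φ)) h
  rw [map_zero] at h1
  unfold wh at h1
  rw [map_sum] at h1
  rw [← h1]
  refine sum_congr rfl fun i _ => ?_
  rw [LinearMap.comp_apply, LinearMap.lTensor_tmul]
  simp [Algebra.smul_def, mul_comm]

theorem inversion [CharP Ω 2] {ζ : Ω} (hζ : IsPrimitiveRoot ζ m) (hm : Odd m) (f : ZMod m → Ω)
    (hf : ∀ l : ZMod m, ∑ i, ee (ee ζ l) i * f i = 0) (i : ZMod m) : f i = 0 := by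
  have h1 : ζ ^ m = 1 := hζ.pow_eq_one
  have h2 : ∑ l : ZMod m, ee ζ (-(i * l)) * ∑ j, ee (ee ζ l) j * f j = 0 :=
    sum_eq_zero fun l _ => by rw [hf, mul_zero]
  have hee : ∀ l j : ZMod m, ee (ee ζ l) j = ee ζ (l * j) := by
    intro l j
    unfold ee
    rw [ZMod.val_mul, ← pow_mul, ← pow_eq_pow_mod _ h1]
  have hgeom : ∀ a : ZMod m, a ≠ 0 → ∑ l : ZMod m, ee ζ (a * l) = 0 := by
    intro a ha
    have h3 : ee ζ a * ∑ l : ZMod m, ee ζ (a * l) = ∑ l : ZMod m, ee ζ (a * l) := by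
      rw [mul_sum, ← Equiv.sum_comp (Equiv.addLeft (1 : ZMod m)) (fun l => ee ζ (a * l))]
      refine sum_congr rfl fun l _ => ?_
      rw [Equiv.coe_addLeft, mul_add, mul_one, ee_add h1]
    have h4 : ee ζ a ≠ 1 := by
      intro h5
      unfold ee at h5
      have h6 := (hζ.pow_eq_one_iff_dvd _).1 h5
      have h7 := ZMod.val_lt a
      have h8 : a.val ≠ 0 := by
        rwa [Ne, ZMod.val_eq_zero]
      exact absurd (Nat.le_of_dvd (Nat.pos_of_ne_zero h8) h6) (not_le.2 h7)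
    have h5 : (ee ζ a - 1) * ∑ l : ZMod m, ee ζ (a * l) = 0 := by
      rw [sub_mul, one_mul, h3, sub_self]
    exact (mul_eq_zero.1 h5).resolve_left (sub_ne_zero.2 h4)
  have h3 : ∑ l : ZMod m, ee ζ (-(i * l)) * ∑ j, ee (ee ζ l) j * f j = f i := by
    have h4 : ∀ l : ZMod m, ee ζ (-(i * l)) * ∑ j, ee (ee ζ l) j * f j =
        ∑ j, ee ζ ((j - i) * l) * f j := by
      intro l
      rw [mul_sum]
      refine sum_congr rfl fun j _ => ?_
      rw [hee, ← mul_assoc, ← ee_add h1]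
      congr 2
      ring
    rw [sum_congr rfl fun l _ => h4 l, sum_comm]
    rw [Finset.sum_eq_single i]
    · simp only [sub_self, zero_mul, ee_zero, one_mul, sum_const, card_univ, ZMod.card, nsmul_eq_mul]
      obtain ⟨k, hk⟩ := hm
      have : ((m : ℕ) : Ω) = 1 := by
        rw [hk]
        push_cast
        have : (2 : Ω) = 0 := CharTwo.two_eq_zero
        rw [this, zero_mul, zero_add]
      rw [this, one_mul]
    · intro j _ hj
      rw [← sum_mul, hgeom _ (sub_ne_zero.2 hj), zero_mul]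
    · intro h
      exact absurd (mem_univ _) h
  rw [← h3, h2]

end

theorem t_CHP : S_CHP := by
  intro W _ _ _ m _ hm s hs Cc hC w hw hE
  have hchar : CharP (AlgebraicClosure F2) 2 := charP_of_injective_algebraMap
    (algebraMap F2 (AlgebraicClosure F2)).injective 2
  have hm0 : NeZero ((m : ℕ) : AlgebraicClosure F2) := by
    refine ⟨fun h => ?_⟩
    have := (CharP.cast_eq_zero_iff (AlgebraicClosure F2) 2 m).1 h
    rw [Nat.odd_iff] at hm
    omega
  haveI : Module.Finite F2 W := Module.Finite.of_finite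
  have hwh : ∀ ξ : AlgebraicClosure F2, ξ ^ m = 1 → wh w ξ = 0 := by
    intro ξ hξ
    by_cases h1 : ξ = 1
    · subst h1
      unfold wh ee
      simp only [one_pow]
      rw [← TensorProduct.tmul_sum, hw, TensorProduct.tmul_zero]
    · by_contra h0
      have h2 := fourier hξ s hs Cc w hE
      have h3 : Module.End.HasEigenvalue (Cc.baseChange (AlgebraicClosure F2))
          (∑ j : ZMod m, algebraMap F2 (AlgebraicClosure F2) (s j) * (ξ ^ j.val + 1)) :=
        Module.End.hasEigenvalue_of_hasEigenvector (Module.End.hasEigenvector_iff.2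
          ⟨Module.End.mem_eigenspace_iff.2 h2, h0⟩)
      rw [Module.End.hasEigenvalue_iff_isRoot_charpoly, LinearMap.charpoly_baseChange,
        Polynomial.IsRoot, Polynomial.eval_map_algebraMap] at h3
      exact hC ξ hξ h1 h3
  obtain ⟨ζ, hζ⟩ := HasEnoughRootsOfUnity.exists_primitiveRoot (AlgebraicClosure F2) m
  funext i
  rw [Pi.zero_apply, ← Module.forall_dual_apply_eq_zero_iff F2]
  intro φ
  have h1 := inversion hζ hm (fun i => algebraMap F2 (AlgebraicClosure F2) (φ (w i))) (fun l => by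
    have h2 : ee ζ l ^ m = 1 := by
      unfold ee
      rw [← pow_mul, mul_comm, pow_mul, hζ.pow_eq_one, one_pow]
    exact pairing (φ := φ) ζ w (ee ζ l) (hwh _ h2)) i
  exact (map_eq_zero _).1 h1

end Pool.Agent.Q24.GT
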