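import Pool.Agent.Q269.GT.Stm
import Pool.Agent.H341R2.WeilSharp

set_option autoImplicit false
set_option linter.all false

namespace Pool.Agent.Q24.GT

open Pool.Agent.Q269.GT Finset Polynomial Module
open Pool.Agent.Y164.HG (F2)
open scoped Classical

section

variable {k E : Type} [Field k] [Finite k] [Field E] [Finite E] [Algebra k E]

theorem sep_prod {τ : Type} (Q : τ → k[X]) (hQ : ∀ s, (Q s).Monic ∧ Irreducible (Q s))
    (hinj : Function.Injective Q) (J : Finset τ) :
    (∏ s ∈ J, (Q s).map (algebraMap k E)).Separable := by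
  rw [← Polynomial.map_prod]
  refine Polynomial.Separable.map ?_
  refine Polynomial.separable_prod' ?_ ?_
  · intro x hx y hy hxy
    refine (Irreducible.coprime_iff_not_dvd (hQ x).2).2 fun h => hxy (hinj ?_)
    exact Polynomial.eq_of_monic_of_associated (hQ x).1 (hQ y).1
      ((hQ x).2.associated_of_dvd (hQ y).2 h)
  · intro x _
    exact PerfectField.separable_of_irreducible (hQ x).2

theorem not_sq {f : E[X]} (hs : f.Separable) (hd : 1 ≤ f.natDegree) (c : E) (h : E[X]) :
    f ≠ C c * h ^ 2 := by
  intro e
  have h1 : h * h ∣ f := ⟨C c, by rw [e]; ring⟩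
  have h2 : IsUnit h := hs.squarefree h h1
  have h3 : f.natDegree = 0 := by
    rw [e]
    refine Nat.eq_zero_of_le_zero ((natDegree_mul_le).trans ?_)
    rw [natDegree_C, natDegree_pow, natDegree_eq_zero_of_isUnit h2]
  omega

end

theorem t_CLS : S_CLS := by
  intro k E _ _ _ _ _ hk τ _ Q hQ hinj b
  haveI : Fintype E := Fintype.ofFinite E
  haveI : Fintype k := Fintype.ofFinite k
  have hE : ringChar E ≠ 2 := by
    rwa [← Algebra.ringChar_eq k E]
  set N : ℝ := (Nat.card E : ℝ) with hN
  have hNF : N = (Fintype.card E : ℝ) := by rw [hN, Nat.card_eq_fintype_card]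
  set D : ℝ := ∑ s, ((Q s).natDegree : ℝ) with hD
  have hD0 : 0 ≤ D := sum_nonneg fun s _ => Nat.cast_nonneg _
  set ε : τ → ℝ := fun s => if b s = 0 then 1 else -1 with hε
  set χ : τ → E → ℝ := fun s θ => (quadraticChar E (aeval θ (Q s)) : ℝ) with hχ
  set A : Finset E := univ.filter fun θ => ∀ s, aeval θ (Q s) ≠ 0 ∧
    (IsSquare (aeval θ (Q s)) ↔ b s = 0) with hA
  have hAn : {θ : E | ∀ s, aeval θ (Q s) ≠ 0 ∧ (IsSquare (aeval θ (Q s)) ↔ b s = 0)} = (A : Set E) := by
    ext θ
    simp [hA]
  rw [hAn, Set.ncard_coe_finset]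
  set Z : Finset E := univ.filter fun θ => ∃ s, aeval θ (Q s) = 0 with hZ
  have hval : ∀ s θ, χ s θ = 0 ∨ χ s θ = 1 ∨ χ s θ = -1 := by
    intro s θ
    by_cases h0 : aeval θ (Q s) = 0
    · left
      simp only [hχ]
      rw [h0, quadraticChar_zero]
      norm_num
    · rcases quadraticChar_dichotomy h0 with h | h
      · right; left
        simp only [hχ]
        rw [h]
        norm_num
      · right; right
        simp only [hχ]
        rw [h]
        norm_num
  have hεv : ∀ s, ε s = 1 ∨ ε s = -1 := by
    intro s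
    simp only [hε]
    split_ifs
    · exact Or.inl rfl
    · exact Or.inr rfl
  have hfac : ∀ s θ, 0 ≤ 1 + ε s * χ s θ ∧ 1 + ε s * χ s θ ≤ 2 := by
    intro s θ
    rcases hεv s with h | h <;> rcases hval s θ with h' | h' | h' <;> rw [h, h'] <;> norm_num
  have hZc : (Z.card : ℝ) ≤ D := by
    have h1 : Z ⊆ univ.biUnion fun s => ((Q s).map (algebraMap k E)).roots.toFinset := by
      intro θ hθ
      rw [hZ, mem_filter] at hθ
      obtain ⟨_, s, hs⟩ := hθ
      rw [mem_biUnion]
      refine ⟨s, mem_univ _, ?_⟩
      rw [Multiset.mem_toFinset, mem_roots ((Polynomial.map_ne_zero_iff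
        (algebraMap k E).injective).2 (hQ s).2.ne_zero), IsRoot, eval_map_algebraMap]
      exact hs
    have h2 : Z.card ≤ ∑ s, (Q s).natDegree := by
      refine (card_le_card h1).trans (card_biUnion_le.trans (sum_le_sum fun s _ => ?_))
      refine (Multiset.toFinset_card_le _).trans ((card_roots' _).trans ?_)
      rw [natDegree_map]
    have h3 : (Z.card : ℝ) ≤ ((∑ s, (Q s).natDegree : ℕ) : ℝ) := by exact_mod_cast h2
    rw [Nat.cast_sum] at h3
    exact h3
  -- upper bound for the total
  have hup : ∑ θ : E, ∏ s, (1 + ε s * χ s θ) ≤ 2 ^ Fintype.card τ * (A.card + Z.card) := by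
    have h1 : ∀ θ : E, ∏ s, (1 + ε s * χ s θ) ≤ (if θ ∈ A then (2 : ℝ) ^ Fintype.card τ else 0) +
        if θ ∈ Z then (2 : ℝ) ^ Fintype.card τ else 0 := by
      intro θ
      have hle : ∏ s, (1 + ε s * χ s θ) ≤ (2 : ℝ) ^ Fintype.card τ := by
        rw [← card_univ, ← prod_const]
        exact prod_le_prod (fun s _ => (hfac s θ).1) fun s _ => (hfac s θ).2
      by_cases hz : θ ∈ Z
      · rw [if_pos hz]
        have : (0 : ℝ) ≤ if θ ∈ A then (2 : ℝ) ^ Fintype.card τ else 0 := by
          split_ifs <;> positivity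
        linarith
      · rw [if_neg hz, add_zero]
        by_cases ha : θ ∈ A
        · rw [if_pos ha]
          exact hle
        · rw [if_neg ha]
          refine le_of_eq ?_
          have hnz : ∀ s, aeval θ (Q s) ≠ 0 := by
            intro s h
            exact hz (by rw [hZ, mem_filter]; exact ⟨mem_univ _, s, h⟩)
          have : ∃ s, ¬ (IsSquare (aeval θ (Q s)) ↔ b s = 0) := by
            by_contra hcon
            push Not at hcon
            exact ha (by
              rw [hA, mem_filter]
              exact ⟨mem_univ _, fun s => ⟨hnz s, by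
                have := hcon s
                tauto⟩⟩)
          obtain ⟨s, hs⟩ := this
          refine prod_eq_zero (mem_univ s) ?_
          have hq := quadraticChar_one_iff_isSquare (hnz s)
          simp only [hχ, hε]
          by_cases hb : b s = 0
          · rw [if_pos hb]
            have h3 : ¬ IsSquare (aeval θ (Q s)) := by tauto
            rcases quadraticChar_dichotomy (hnz s) with h | h
            · exact absurd (hq.1 h) h3
            · rw [h]
              norm_num
          · rw [if_neg hb]
            have h3 : IsSquare (aeval θ (Q s)) := by tauto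
            rw [hq.2 h3]
            norm_num
    refine (sum_le_sum fun θ _ => h1 θ).trans (le_of_eq ?_)
    rw [sum_add_distrib, sum_ite_mem, sum_ite_mem, univ_inter, univ_inter, sum_const, sum_const,
      nsmul_eq_mul, nsmul_eq_mul]
    ring
  -- lower bound
  have hlow : N - 2 ^ Fintype.card τ * (D * Real.sqrt N) ≤ ∑ θ : E, ∏ s, (1 + ε s * χ s θ) := by
    have h1 : ∀ θ : E, ∏ s, (1 + ε s * χ s θ) = ∑ J ∈ (univ : Finset τ).powerset,
        ∏ s ∈ J, (ε s * χ s θ) := by
      intro θ
      rw [Finset.prod_one_add]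
    rw [sum_congr rfl fun θ _ => h1 θ, sum_comm]
    have h2 : ∀ J ∈ (univ : Finset τ).powerset, (if J = ∅ then N else 0) - D * Real.sqrt N ≤
        ∑ θ : E, ∏ s ∈ J, (ε s * χ s θ) := by
      intro J _
      have hDs : 0 ≤ D * Real.sqrt N := mul_nonneg hD0 (Real.sqrt_nonneg _)
      by_cases hJ : J = ∅
      · subst hJ
        rw [if_pos rfl]
        simp only [prod_empty, sum_const, card_univ, nsmul_eq_mul, mul_one]
        rw [← hNF]
        linarith
      · rw [if_neg hJ, zero_sub]
        set f : E[X] := ∏ s ∈ J, (Q s).map (algebraMap k E) with hf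
        have hmon : ∀ s ∈ J, ((Q s).map (algebraMap k E)).Monic := fun s _ => (hQ s).1.map _
        have hdeg : f.natDegree = ∑ s ∈ J, (Q s).natDegree := by
          rw [hf, natDegree_prod_of_monic _ _ hmon]
          exact sum_congr rfl fun s _ => natDegree_map _
        obtain ⟨s0, hs0⟩ := nonempty_iff_ne_empty.2 hJ
        have hd1 : 1 ≤ f.natDegree := by
          rw [hdeg]
          refine le_trans ?_ (single_le_sum (fun s _ => Nat.zero_le _) hs0)
          exact (hQ s0).2.natDegree_pos
        have hdD : (f.natDegree : ℝ) ≤ D := by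
          rw [hdeg, hD, Nat.cast_sum]
          exact sum_le_sum_of_subset_of_nonneg (subset_univ _) fun s _ _ => Nat.cast_nonneg _
        have hw := Pool.Agent.H341R2.Sharp.weil_sharp hE f hd1
          (not_sq (sep_prod (E := E) Q hQ hinj J) hd1)
        have h3 : ∑ θ : E, ∏ s ∈ J, (ε s * χ s θ) = (∏ s ∈ J, ε s) *
            ∑ θ : E, (quadraticChar E (f.eval θ) : ℝ) := by
          rw [mul_sum]
          refine sum_congr rfl fun θ _ => ?_
          rw [prod_mul_distrib]
          congr 1
          rw [hf, eval_prod, map_prod, Int.cast_prod]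
          refine prod_congr rfl fun s _ => ?_
          simp only [hχ]
          rw [eval_map_algebraMap]
        have h4 : |∏ s ∈ J, ε s| = 1 := by
          rw [abs_prod]
          refine prod_eq_one fun s _ => ?_
          rcases hεv s with h | h <;> rw [h] <;> norm_num
        have h5 : |∑ θ : E, ∏ s ∈ J, (ε s * χ s θ)| ≤ D * Real.sqrt N := by
          rw [h3, abs_mul, h4, one_mul, hNF]
          refine hw.trans (mul_le_mul_of_nonneg_right ?_ (Real.sqrt_nonneg _))
          linarith
        have := (abs_le.1 h5).1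
        linarith
    refine le_trans ?_ (sum_le_sum h2)
    rw [sum_sub_distrib, sum_const, card_powerset, card_univ, nsmul_eq_mul, sum_ite_eq']
    rw [if_pos (by simp)]
    push_cast
    linarith
  have hT : (0 : ℝ) < 2 ^ Fintype.card τ := by positivity
  have h1 : N - 2 ^ Fintype.card τ * (D * Real.sqrt N) ≤ 2 ^ Fintype.card τ * (A.card + D) := by
    refine hlow.trans (hup.trans ?_)
    exact mul_le_mul_of_nonneg_left (by linarith) hT.le
  have hN1 : 1 ≤ Real.sqrt N := by
    rw [Real.one_le_sqrt, hN]
    exact_mod_cast Nat.card_pos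
  have h2 : D ≤ D * Real.sqrt N := le_mul_of_one_le_right hD0 hN1
  have h3 : N ≤ 2 ^ Fintype.card τ * (A.card + 2 * D * Real.sqrt N) := by
    nlinarith [mul_le_mul_of_nonneg_left h2 hT.le]
  rw [sub_le_iff_le_add, div_le_iff₀ hT]
  linarith

end Pool.Agent.Q24.GT
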