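import Pool.Agent.Q269.GT.Stm

set_option autoImplicit false
set_option linter.all false

namespace Pool.Agent.Q24.GT

open Pool.Agent.Q269.GT Finset
open Pool.Agent.Y164.HG (F2 Symp om Dat Triv V FF dg om_add_left om_add_right om_comm om_smul_left
  om_smul_right om_sum_left om_sum_right om_zero_left om_zero_right eq_zero_of_om W_add_self F2_add_self)

section

variable {W τ : Type} [AddCommGroup W] [Module F2 W] [Symp W] [Fintype τ] (D : Dat W τ) {m : ℕ} [NeZero m]

theorem ks_zero : D.ks 0 = 0 := by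
  have h := D.ks_add 0 0
  rw [add_zero] at h
  have := W_add_self (D.ks 0)
  rw [← h] at this
  exact this

theorem ks_sum {α : Type} (s : Finset α) (f : α → W) : D.ks (∑ a ∈ s, f a) = ∑ a ∈ s, D.ks (f a) :=
  map_sum (⟨⟨D.ks, ks_zero D⟩, D.ks_add⟩ : W →+ W) f s

theorem odd_cast (hm : Odd m) : ((m : ℕ) : F2) = 1 := by
  obtain ⟨k, hk⟩ := hm
  rw [hk]
  push_cast
  have : (2 : F2) = 0 := by decide
  rw [this, zero_mul, zero_add]

/-- the double sum with a cyclic kernel -/
theorem dbl {M : Type} [AddCommGroup M] [Module F2 M] (s : ZMod m → F2) (f : ZMod m → M) :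
    ∑ i, ∑ j, s (j - i) • (f j + f i) = 0 := by
  simp only [smul_add, sum_add_distrib]
  have h1 : ∑ i : ZMod m, ∑ j, s (j - i) • f j = (∑ l, s l) • ∑ i, f i := by
    rw [sum_comm, smul_sum]
    refine sum_congr rfl fun j _ => ?_
    rw [← sum_smul]
    congr 1
    exact Equiv.sum_comp (Equiv.subLeft j) s
  have h2 : ∑ i : ZMod m, ∑ j, s (j - i) • f i = (∑ l, s l) • ∑ i, f i := by
    rw [smul_sum]
    refine sum_congr rfl fun i _ => ?_
    rw [← sum_smul]
    congr 1
    exact Equiv.sum_comp (Equiv.subRight i) s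
  rw [h1, h2]
  have h : (1 : F2) + 1 = 0 := by decide
  rw [← one_smul F2 ((∑ l, s l) • ∑ i, f i), ← add_smul, h, zero_smul]

theorem FF_const (hm : Odd m) (s : ZMod m → F2) (b : τ → F2) (w : V W (ZMod m) τ) (u' : W) (z' : τ → F2) :
    FF D (fun i j : ZMod m => s (j - i)) (fun _ => b) (fun _ => 1) w ((fun _ => u'), z') =
      FF D (fun (_ _ : Unit) => (0 : F2)) (fun _ => b) (fun _ => 1) ((fun _ => ∑ i, w.1 i), w.2)
        ((fun _ => u'), z') := by
  unfold FF
  simp only [Finset.univ_unique, sum_singleton, zero_mul, zero_add, one_mul]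
  have h1 : ∑ i : ZMod m, ∑ j, s (j - i) * (om (w.1 j) u' + om (w.1 i) u') = 0 :=
    dbl (M := F2) s (fun i => om (w.1 i) u')
  rw [h1, zero_add]
  have h2 : ∑ i : ZMod m, ∑ r, b r * (om (w.1 i) (D.t r) * om u' (D.t r) + w.2 r * om (D.t r) u' +
      z' r * om (w.1 i) (D.t r)) = ∑ r, b r * (om (∑ i, w.1 i) (D.t r) * om u' (D.t r) +
      w.2 r * om (D.t r) u' + z' r * om (∑ i, w.1 i) (D.t r)) := by
    rw [sum_comm]
    refine sum_congr rfl fun r _ => ?_
    rw [← mul_sum]
    congr 1
    rw [sum_add_distrib, sum_add_distrib, om_sum_left, sum_mul, mul_sum, sum_const, card_univ,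
      ZMod.card, nsmul_eq_mul, odd_cast hm, one_mul]
  rw [h2]
  congr 1
  rw [ks_sum, om_sum_left]

theorem dg_const (hm : Odd m) (u' : W) (z' : τ → F2) :
    dg D (fun _ : ZMod m => 1) ((fun _ => u'), z') =
      dg D (fun _ : Unit => 1) ((fun _ => u'), z') := by
  unfold dg
  simp only [Finset.univ_unique, sum_singleton, one_smul, sum_const, card_univ, ZMod.card]
  congr 1
  rw [← Nat.cast_smul_eq_nsmul F2, odd_cast hm, one_smul, Finset.card_singleton, one_nsmul]

theorem dg_sum (w : V W (ZMod m) τ) : dg D (fun _ : ZMod m => 1) w =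
    dg D (fun _ : Unit => 1) ((fun _ => ∑ i, w.1 i), w.2) := by
  unfold dg
  simp only [Finset.univ_unique, sum_singleton, one_smul]

theorem FF_z (s : ZMod m → F2) (b : τ → F2) (w w' : ZMod m → W) :
    FF D (fun i j : ZMod m => s (j - i)) (fun _ => b) (fun _ => 1) ((w, 0) : V W (ZMod m) τ) (w', 0) =
      ∑ i, om (∑ j, s (j - i) • (w j + w i) + ∑ r, b r • (om (w i) (D.t r) • D.t r) + D.ks (w i))
        (w' i) := by
  unfold FF
  simp only [Pi.zero_apply, zero_mul, mul_zero, add_zero, sum_const_zero, one_mul]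
  rw [← sum_add_distrib, ← sum_add_distrib]
  refine sum_congr rfl fun i _ => ?_
  rw [om_add_left, om_add_left, om_sum_left, om_sum_left]
  congr 1
  congr 1
  · refine sum_congr rfl fun j _ => ?_
    rw [om_smul_left, om_add_left]
  · refine sum_congr rfl fun r _ => ?_
    rw [om_smul_left, om_smul_left, om_comm (D.t r)]

end

theorem t_CYC : S_CYC := by
  intro W τ _ _ _ _ D m _ hm s hs b hT hC w hw hF
  have h1 : ((fun _ : Unit => ∑ i, w.1 i), w.2) = (0 : V W Unit τ) := by
    refine hT _ ?_ fun w' hw' => ?_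
    · rw [← dg_sum]
      exact hw
    · have e : w' = ((fun _ => w'.1 ()), w'.2) := rfl
      rw [e, ← FF_const D hm s b]
      refine hF _ ?_
      rw [dg_const D hm]
      exact hw'
  have hu : ∑ i, w.1 i = 0 := congrFun (congrArg Prod.fst h1) ()
  have hz : w.2 = 0 := congrArg Prod.snd h1
  obtain ⟨w1, w2⟩ := w
  simp only at hu hz
  subst hz
  set Y : ZMod m → W := fun i => ∑ j, s (j - i) • (w1 j + w1 i) +
    ∑ r, b r • (om (w1 i) (D.t r) • D.t r) + D.ks (w1 i) with hY
  have hFz : ∀ w' : ZMod m → W, ∑ i, w' i = 0 → ∑ i, om (Y i) (w' i) = 0 := by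
    intro w' hw'
    rw [← FF_z D s b w1 w']
    refine hF _ ?_
    unfold dg
    simp only [one_smul, Pi.zero_apply, mul_zero, zero_smul, sum_const_zero, add_zero]
    exact hw'
  have hYY : ∀ i j, Y i = Y j := by
    intro i j
    have h2 : Y i + Y j = 0 := by
      refine eq_zero_of_om _ fun y => ?_
      have h3 := hFz (Pi.single i y + Pi.single j y) (by
        simp only [Pi.add_apply, sum_add_distrib, Finset.sum_pi_single', mem_univ, if_true]
        exact W_add_self y)
      simp only [Pi.add_apply, om_add_right, sum_add_distrib] at h3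
      have h4 : ∀ l : ZMod m, ∑ x, om (Y x) ((Pi.single l y : ZMod m → W) x) = om (Y l) y := by
        intro l
        rw [Finset.sum_eq_single l]
        · rw [Pi.single_eq_same]
        · intro x _ hx
          rw [Pi.single_eq_of_ne hx, om_zero_right]
        · intro h
          exact absurd (mem_univ _) h
      rw [h4, h4] at h3
      rw [om_add_left]
      exact h3
    have h3 := W_add_self (Y j)
    have : Y i + Y j = Y j + Y j := by rw [h2, h3]
    exact add_right_cancel this
  have hYs : ∑ i, Y i = 0 := by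
    rw [hY]
    simp only [sum_add_distrib]
    have e1 := dbl (m := m) s w1
    rw [e1, zero_add]
    have e2 : ∑ i, ∑ r, b r • (om (w1 i) (D.t r) • D.t r) = 0 := by
      rw [sum_comm]
      refine sum_eq_zero fun r _ => ?_
      rw [← smul_sum, ← sum_smul, ← om_sum_left, hu, om_zero_left, zero_smul, smul_zero]
    rw [e2, zero_add, ← ks_sum, hu, ks_zero]
  have hY0 : ∀ i, Y i = 0 := by
    intro i
    rw [sum_congr rfl fun j _ => hYY j i, sum_const, card_univ, ZMod.card,
      ← Nat.cast_smul_eq_nsmul F2, odd_cast hm, one_smul] at hYs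
    exact hYs
  have h5 := hC w1 hu hY0
  rw [h5]
  rfl

end Pool.Agent.Q24.GT
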