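import Pool.Agent.Q269.GT.Stm

set_option autoImplicit false
set_option linter.all false

namespace Pool.Agent.Q24.GT

open Pool.Agent.Q269.GT Finset Polynomial Module
open Pool.Agent.Y164.HG (F2)
open scoped Classical

section

variable {k E : Type} [Field k] [Finite k] [Field E] [Finite E] [Algebra k E]

theorem sq_odd_pow {x : E} {n : ℕ} (hn : Odd n) : IsSquare (x ^ n) ↔ IsSquare x := by
  obtain ⟨l, hl⟩ := hn
  by_cases h0 : x = 0
  · subst h0
    rw [zero_pow (by omega)]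
  · constructor
    · intro h
      have h1 : x ^ n = x * (x ^ l * x ^ l) := by rw [hl]; ring
      obtain ⟨r, hr⟩ := h
      refine ⟨r / x ^ l, ?_⟩
      rw [div_mul_div_comm, ← hr, h1, mul_div_assoc, div_self (mul_ne_zero (pow_ne_zero l h0)
        (pow_ne_zero l h0)), mul_one]
    · intro h
      exact h.pow n

theorem sg_zero (θ : E) : sg k θ 0 = 0 := by
  unfold sg
  rw [pow_zero, pow_one, sub_self, if_pos IsSquare.zero]

theorem sg_symm (hk : ringChar k ≠ 2) (h1 : IsSquare (-1 : k)) {m : ℕ} (hfr : finrank k E = m)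
    (θ : E) {j : ℕ} (hj : j ≤ m) : sg k θ (m - j) = sg k θ j := by
  haveI : Fintype k := Fintype.ofFinite k
  haveI : Fintype E := Fintype.ofFinite E
  have hq : Nat.card k = Fintype.card k := Nat.card_eq_fintype_card
  have hqo : Odd (Nat.card k) := by
    rw [hq, ← Nat.not_even_iff_odd]
    intro h
    exact hk ((FiniteField.even_card_iff_char_two (F := k)).2 (Nat.even_iff.1 h))
  have hθ : θ ^ (Nat.card k ^ m) = θ := by
    have h2 := FiniteField.pow_card θ
    rw [Module.card_eq_pow_finrank (K := k) (V := E), hfr, ← hq] at h2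
    exact h2
  have hsub : ∀ (x y : E) (j : ℕ), (x - y) ^ (Nat.card k ^ j) = x ^ (Nat.card k ^ j) -
      y ^ (Nat.card k ^ j) := by
    intro x y j
    obtain ⟨p, hp⟩ := CharP.exists k
    haveI : CharP E p := charP_of_injective_algebraMap (algebraMap k E).injective p
    obtain ⟨n, hpp, hcard⟩ := FiniteField.card k p
    haveI : Fact p.Prime := ⟨hpp⟩
    rw [hq, hcard, ← pow_mul]
    exact sub_pow_char_pow x y _
  have key : IsSquare (θ - θ ^ (Nat.card k ^ (m - j))) ↔ IsSquare (θ - θ ^ (Nat.card k ^ j)) := by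
    rw [← sq_odd_pow (n := Nat.card k ^ j) (hqo.pow), hsub, ← pow_mul, ← pow_add,
      Nat.sub_add_cancel hj, hθ]
    have h2 : θ ^ (Nat.card k ^ j) - θ = algebraMap k E (-1) * (θ - θ ^ (Nat.card k ^ j)) := by
      rw [map_neg, map_one]
      ring
    have h3 : IsSquare (algebraMap k E (-1)) := h1.map _
    constructor
    · intro h
      have h4 := h3.mul h
      rw [h2, ← mul_assoc, ← map_mul] at h4
      simpa using h4
    · intro h
      rw [h2]
      exact h3.mul h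
  unfold sg
  by_cases h : IsSquare (θ - θ ^ (Nat.card k ^ j))
  · rw [if_pos h, if_pos (key.2 h)]
  · rw [if_neg h, if_neg fun h' => h (key.1 h')]

end

theorem sum_zmod {M : Type} [AddCommMonoid M] {m : ℕ} [NeZero m] (f : ℕ → M) :
    ∑ j : ZMod m, f j.val = ∑ n ∈ range m, f n := by
  refine Finset.sum_nbij' (fun j => j.val) (fun n => (n : ZMod m)) ?_ ?_ ?_ ?_ ?_
  · intro j _
    exact mem_range.2 (ZMod.val_lt j)
  · intro n _
    exact mem_univ _
  · intro j _
    exact ZMod.natCast_zmod_val j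
  · intro n hn
    exact ZMod.val_cast_of_lt (mem_range.1 hn)
  · intro j _
    rfl

theorem fold_sum {Ω : Type} [Field Ω] [Algebra F2 Ω] [CharP Ω 2] {m : ℕ} [NeZero m] (hm : Odd m)
    (ξ : Ω) (σ : ℕ → F2) (h0 : σ 0 = 0) (hs : ∀ j, j ≤ m → σ (m - j) = σ j) :
    ∑ j : ZMod m, algebraMap F2 Ω (σ j.val) * (ξ ^ j.val + 1) =
      ∑ i ∈ Icc 1 ((m - 1) / 2), σ i • (ξ ^ i + ξ ^ (m - i)) := by
  obtain ⟨M, hM⟩ := hm
  rw [sum_zmod (fun n => algebraMap F2 Ω (σ n) * (ξ ^ n + 1))]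
  have e1 : range m = range ((M + 1) + M) := by
    congr 1
    omega
  rw [e1, Finset.sum_range_add, Finset.sum_range_succ', h0, map_zero, zero_mul, add_zero,
    ← Finset.sum_range_reflect (fun x => algebraMap F2 Ω (σ (M + 1 + x)) * (ξ ^ (M + 1 + x) + 1)),
    ← sum_add_distrib]
  have e2 : (m - 1) / 2 = M := by omega
  have e4 : Icc 1 M = Ico 1 (M + 1) := by
    ext i
    simp only [mem_Icc, mem_Ico]
    omega
  rw [e2, e4, Finset.sum_Ico_eq_sum_range, Nat.add_sub_cancel]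
  refine sum_congr rfl fun n hn => ?_
  rw [mem_range] at hn
  have e3 : M + 1 + (M - 1 - n) = m - (n + 1) := by omega
  rw [e3, hs (n + 1) (by omega), Algebra.smul_def, add_comm 1 n]
  have h2 := CharTwo.add_self_eq_zero (1 : Ω)
  linear_combination (algebraMap F2 Ω (σ (n + 1))) * h2

theorem t_EXC (h1 : S_SPN) (h2 : S_CNT) : S_EXC := by
  intro k E _ _ _ _ _ m _ hk hm1 hmp hm hfr p hp
  have hchar : CharP (AlgebraicClosure F2) 2 := charP_of_injective_algebraMap
    (algebraMap F2 (AlgebraicClosure F2)).injective 2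
  haveI : Fintype k := Fintype.ofFinite k
  haveI : Fintype E := Fintype.ofFinite E
  set Ω := AlgebraicClosure F2
  set q : ℝ := (Nat.card k : ℝ) with hq
  have hq2 : 2 ≤ q := by
    have : 1 < Nat.card k := Finite.one_lt_card
    rw [hq]
    exact_mod_cast this
  set f := orderOf (2 : ZMod m) with hf
  set B : ℝ := 3 * q ^ m / 2 ^ (f / 4) with hB
  have hB0 : 0 ≤ B := by positivity
  -- the roots
  set R : Finset Ω := (nthRoots m (1 : Ω)).toFinset.erase 1 with hR
  have hRm : ∀ ξ : Ω, ξ ∈ R ↔ ξ ^ m = 1 ∧ ξ ≠ 1 := by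
    intro ξ
    rw [hR, mem_erase, Multiset.mem_toFinset, mem_nthRoots hmp.pos]
    tauto
  have hRc : R.card ≤ m := by
    rw [hR]
    exact (card_le_card (erase_subset _ _)).trans ((Multiset.toFinset_card_le _).trans
      (card_nthRoots m 1))
  set P : Finset Ω := (p.map (algebraMap F2 Ω)).roots.toFinset with hP
  have hPc : P.card ≤ p.natDegree := by
    rw [hP]
    refine (Multiset.toFinset_card_le _).trans ((card_roots' _).trans ?_)
    rw [natDegree_map]
  have hPm : ∀ y : Ω, aeval y p = 0 → y ∈ P := by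
    intro y hy
    rw [hP, Multiset.mem_toFinset, mem_roots ((Polynomial.map_ne_zero_iff
      (algebraMap F2 Ω).injective).2 hp), IsRoot, eval_map_algebraMap]
    exact hy
  set A : Ω → Ω → Set E := fun ξ y => {θ : E | θ ∉ Set.range (algebraMap k E) ∧
    ∑ i ∈ Icc 1 ((m - 1) / 2), sg k θ i • (ξ ^ i + ξ ^ (m - i)) = y} with hA
  have hAc : ∀ ξ ∈ R, ∀ y, ((A ξ y).ncard : ℝ) ≤ B := by
    intro ξ hξ y
    obtain ⟨hx1, hx2⟩ := (hRm ξ).1 hξ
    set Y := Submodule.span F2 ((fun i : ℕ => ξ ^ i + ξ ^ (m - i)) '' Set.Icc 1 ((m - 1) / 2)) with hY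
    have hfin : (((fun i : ℕ => ξ ^ i + ξ ^ (m - i)) '' Set.Icc 1 ((m - 1) / 2))).Finite :=
      (Set.finite_Icc _ _).image _
    haveI : Module.Finite F2 Y := FiniteDimensional.span_of_finite F2 hfin
    haveI : Finite Y := Module.finite_of_finite F2
    have hcard : Nat.card Y = 2 ^ finrank F2 Y := by
      rw [Module.natCard_eq_pow_finrank (K := F2), Nat.card_zmod]
    have h3 := h1 m hmp hm ξ hx1 hx2
    rw [← hY, hcard, ← pow_mul] at h3
    have h4 : f ≤ finrank F2 Y * 2 := (Nat.pow_le_pow_iff_right (by norm_num)).1 h3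
    have h5 : finrank F2 Y ≤ (m - 1) / 2 := by
      have e1 : ((fun i : ℕ => ξ ^ i + ξ ^ (m - i)) '' Set.Icc 1 ((m - 1) / 2)) =
          (((Icc 1 ((m - 1) / 2)).image (fun i : ℕ => ξ ^ i + ξ ^ (m - i)) : Finset Ω) : Set Ω) := by
        rw [Finset.coe_image, Finset.coe_Icc]
      rw [hY, e1]
      refine (finrank_span_finset_le_card _).trans (card_image_le.trans ?_)
      rw [Nat.card_Icc]
      omega
    set u := finrank F2 Y / 2 with hu
    have h6 := h2 k E m hk hmp hm hfr Ω (fun i : ℕ => ξ ^ i + ξ ^ (m - i)) y u (by omega)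
    rw [← hY, hcard, ← hq] at h6
    refine h6.trans ?_
    have h7 : (2 : ℝ) ^ u / ((2 ^ finrank F2 Y : ℕ) : ℝ) ≤ 1 / 2 ^ u := by
      push_cast
      rw [div_le_div_iff₀ (by positivity) (by positivity), one_mul, ← pow_add]
      exact pow_le_pow_right₀ (by norm_num) (by omega)
    have h8 : 2 / q ^ u ≤ 2 / 2 ^ u :=
      div_le_div_of_nonneg_left (by norm_num) (by positivity) (pow_le_pow_left₀ (by norm_num) hq2 u)
    have h9 : (1 : ℝ) / 2 ^ u + 2 / 2 ^ u ≤ 3 / 2 ^ (f / 4) := by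
      rw [← add_div]
      norm_num
      exact div_le_div_of_nonneg_left (by norm_num) (by positivity)
        (pow_le_pow_right₀ (by norm_num) (by omega))
    calc q ^ m * (2 ^ u / ((2 ^ finrank F2 Y : ℕ) : ℝ) + 2 / q ^ u) ≤
        q ^ m * (3 / 2 ^ (f / 4)) := mul_le_mul_of_nonneg_left (by linarith) (by positivity)
      _ = B := by rw [hB]; ring
  set S := {θ : E | θ ∉ Set.range (algebraMap k E) ∧ ∃ ξ : Ω, ξ ^ m = 1 ∧ ξ ≠ 1 ∧
      aeval (∑ j : ZMod m, algebraMap F2 Ω (sg k θ j.val) * (ξ ^ j.val + 1)) p = 0} with hS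
  have hsub : S ⊆ ⋃ x ∈ R ×ˢ P, A x.1 x.2 := by
    rintro θ ⟨hθ, ξ, hx1, hx2, hz⟩
    rw [fold_sum hm ξ (sg k θ) (sg_zero θ) (fun j hj => sg_symm hk hm1 hfr θ hj)] at hz
    rw [Set.mem_iUnion₂]
    exact ⟨(ξ, _), mem_product.2 ⟨(hRm ξ).2 ⟨hx1, hx2⟩, hPm _ hz⟩, hθ, rfl⟩
  have h3 : S.ncard ≤ ∑ x ∈ R ×ˢ P, (A x.1 x.2).ncard :=
    (Set.ncard_le_ncard hsub (Set.toFinite _)).trans (Finset.set_ncard_biUnion_le _ _)
  have h4 : (S.ncard : ℝ) ≤ ∑ x ∈ R ×ˢ P, ((A x.1 x.2).ncard : ℝ) := by exact_mod_cast h3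
  refine h4.trans ?_
  have h5 : ∑ x ∈ R ×ˢ P, ((A x.1 x.2).ncard : ℝ) ≤ (R ×ˢ P).card • B :=
    sum_le_card_nsmul _ _ _ fun x hx => hAc _ (mem_product.1 hx).1 _
  refine h5.trans ?_
  rw [nsmul_eq_mul, card_product]
  have h6 : ((R.card * P.card : ℕ) : ℝ) ≤ m * p.natDegree := by
    exact_mod_cast Nat.mul_le_mul hRc hPc
  refine (mul_le_mul_of_nonneg_right h6 hB0).trans (le_of_eq ?_)
  rw [hB]
  ring

end Pool.Agent.Q24.GT
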