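import Pool.Agent.Q269.GT.Stm

set_option autoImplicit false
set_option linter.all false

namespace Pool.Agent.Q24.GT

open Pool.Agent.Q269.GT Polynomial Module
open scoped Classical

section

variable {k E : Type} [Field k] [Finite k] [Field E] [Finite E] [Algebra k E]

theorem exists_root (P : k[X]) (hP : Irreducible P) (hd : P.natDegree ∣ finrank k E) :
    ∃ θ : E, aeval θ P = 0 := by
  haveI : Fact (Irreducible P) := ⟨hP⟩
  have h0 : P ≠ 0 := hP.ne_zero
  have hfr : finrank k (AdjoinRoot P) = P.natDegree := (AdjoinRoot.powerBasis h0).finrank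
  haveI : FiniteDimensional k (AdjoinRoot P) := (AdjoinRoot.powerBasis h0).finite
  haveI : Finite (AdjoinRoot P) := Module.finite_of_finite k
  haveI : FiniteDimensional k E := Module.Finite.of_finite
  obtain ⟨f⟩ := FiniteField.nonempty_algHom_of_finrank_dvd (F := k) (K := AdjoinRoot P) (L := E)
    (by rw [hfr]; exact hd)
  refine ⟨f (AdjoinRoot.root P), ?_⟩
  rw [Polynomial.aeval_algHom_apply, AdjoinRoot.aeval_eq, AdjoinRoot.mk_self, map_zero]

theorem t_ROOT : S_ROOT := fun k E _ _ _ _ _ P hP hd => exists_root P hP hd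

theorem card_roots_irr (P : k[X]) (hm : P.Monic) (hP : Irreducible P)
    (hd : P.natDegree ∣ finrank k E) : Nat.card (P.rootSet E) = P.natDegree := by
  obtain ⟨θ, hθ⟩ := exists_root (E := E) P hP hd
  have h1 : P = minpoly k θ := minpoly.eq_of_irreducible_of_monic hP hθ hm
  haveI : FiniteDimensional k E := Module.Finite.of_finite
  have hs : (P.map (algebraMap k E)).Splits := by
    rw [h1]
    exact Normal.splits inferInstance θ
  have hsep : P.Separable := PerfectField.separable_of_irreducible hP
  rw [Nat.card_eq_fintype_card]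
  exact card_rootSet_eq_natDegree hsep hs

theorem t_ORB : S_ORB := by
  intro k E _ _ _ _ _ m hm hfr S
  haveI : FiniteDimensional k E := Module.Finite.of_finite
  haveI : Fintype E := Fintype.ofFinite E
  have hnd : ∀ θ : E, θ ∉ Set.range (algebraMap k E) → (minpoly k θ).natDegree = m := by
    intro θ hθ
    have hint : IsIntegral k θ := IsIntegral.of_finite k θ
    have h1 : (minpoly k θ).natDegree ∣ m := by
      rw [← hfr]
      exact minpoly.degree_dvd hint
    rcases (Nat.dvd_prime hm).1 h1 with h | h
    · exact absurd ((minpoly.natDegree_eq_one_iff).1 h) hθ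
    · exact h
  set A : Finset E := Finset.univ.filter fun θ => θ ∉ Set.range (algebraMap k E) ∧ minpoly k θ ∈ S
    with hA
  have e1 : {θ : E | θ ∉ Set.range (algebraMap k E) ∧ minpoly k θ ∈ S} = (A : Set E) := by
    ext θ
    simp [hA]
  have hroot : ∀ P : k[X], P.Monic → Irreducible P → P.natDegree = m → ∀ θ : E,
      (aeval θ P = 0 ↔ minpoly k θ = P) := by
    intro P h1 h2 h3 θ
    constructor
    · intro h
      exact (minpoly.eq_of_irreducible_of_monic h2 h h1).symm
    · intro h
      rw [← h]
      exact minpoly.aeval k θ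
  have hout : ∀ θ : E, (minpoly k θ).natDegree = m → θ ∉ Set.range (algebraMap k E) := by
    intro θ h h'
    have := (minpoly.natDegree_eq_one_iff (A := k) (x := θ)).2 h'
    rw [h] at this
    exact hm.one_lt.ne' this
  have e2 : {P : k[X] | P.Monic ∧ Irreducible P ∧ P.natDegree = m ∧ P ∈ S} =
      (A.image (minpoly k) : Set k[X]) := by
    ext P
    rw [Finset.coe_image, Set.mem_image]
    constructor
    · rintro ⟨h1, h2, h3, h4⟩
      obtain ⟨θ, hθ⟩ := exists_root (E := E) P h2 (by rw [h3, hfr])
      have h5 := (hroot P h1 h2 h3 θ).1 hθ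
      refine ⟨θ, ?_, h5⟩
      rw [← e1]
      exact ⟨hout θ (by rw [h5, h3]), by rw [h5]; exact h4⟩
    · rintro ⟨θ, hθ, rfl⟩
      rw [← e1] at hθ
      have hint : IsIntegral k θ := IsIntegral.of_finite k θ
      exact ⟨minpoly.monic hint, minpoly.irreducible hint, hnd θ hθ.1, hθ.2⟩
  rw [e1, e2, Set.ncard_coe_finset, Set.ncard_coe_finset,
    Finset.card_eq_sum_card_image (minpoly k) A, Finset.sum_const_nat (m := m)]
  · ring
  · intro P hP
    have hP' : P ∈ {P : k[X] | P.Monic ∧ Irreducible P ∧ P.natDegree = m ∧ P ∈ S} := by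
      rw [e2]
      exact hP
    obtain ⟨h1, h2, h3, h4⟩ := hP'
    have h5 := card_roots_irr (E := E) P h1 h2 (by rw [h3, hfr])
    have h6 : (A.filter fun θ => minpoly k θ = P).card = Nat.card (P.rootSet E) := by
      have e3 : P.rootSet E = ((A.filter fun θ => minpoly k θ = P : Finset E) : Set E) := by
        ext θ
        rw [mem_rootSet, Finset.mem_coe, Finset.mem_filter]
        constructor
        · rintro ⟨_, h⟩
          have h7 := (hroot P h1 h2 h3 θ).1 h
          refine ⟨?_, h7⟩
          rw [← Finset.mem_coe, ← e1]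
          exact ⟨hout θ (by rw [h7, h3]), by rw [h7]; exact h4⟩
        · rintro ⟨_, h⟩
          exact ⟨h2.ne_zero, (hroot P h1 h2 h3 θ).2 h⟩
      rw [e3, Nat.card_coe_set_eq, Set.ncard_coe_finset]
    rw [h6, h5, h3]

end

end Pool.Agent.Q24.GT
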