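import Pool.Agent.Q269.GT.Stm

set_option autoImplicit false
set_option linter.all false

namespace Pool.Agent.Q24.GT

open Pool.Agent.Q269.GT Finset

theorem card_pf (n : ℕ) (hn : n ≠ 0) : 2 ^ n.primeFactors.card ≤ n := by
  have h1 : ∏ p ∈ n.primeFactors, p ≤ n := Nat.le_of_dvd (Nat.pos_of_ne_zero hn)
    (Nat.prod_primeFactors_dvd n)
  refine le_trans ?_ h1
  rw [← Finset.prod_const]
  exact Finset.prod_le_prod' fun p hp => (Nat.prime_of_mem_primeFactors hp).two_le

theorem lcm_le (n : ℕ) (hn : n ≠ 0) : Nat.lcmUpto n ≤ n ^ (Nat.primesLE n).card := by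
  rw [Nat.lcmUpto_eq_prod_pow_log, ← Finset.prod_const]
  exact Finset.prod_le_prod' fun p hp => Nat.pow_log_le_self p hn

/-- many primes -/
theorem many (a : ℕ) (ha : 1 ≤ a) : 2 ^ a ≤ a + 1 + a * (Nat.primesLE (2 ^ a)).card := by
  have h1 := Chebyshev.two_pow_le_mul_lcmUpto (2 ^ a)
  have h2 := lcm_le (2 ^ a) (by positivity)
  have h3 : 2 ^ a + 1 ≤ 2 ^ (a + 1) := by
    rw [pow_succ]
    have : 1 ≤ 2 ^ a := Nat.one_le_two_pow
    omega
  have h4 : 2 ^ (2 ^ a) ≤ 2 ^ (a + 1 + a * (Nat.primesLE (2 ^ a)).card) := by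
    refine h1.trans ?_
    rw [pow_add, pow_mul]
    exact Nat.mul_le_mul h3 h2
  exact (Nat.pow_le_pow_iff_right (by norm_num)).1 h4

theorem big (C K : ℕ) : ∃ a, 1 ≤ a ∧ a + 1 + a * (C + (a * K) ^ 2) < 2 ^ a := by
  have h1 : Filter.Tendsto (fun n : ℕ => (n : ℝ) ^ 4 / 2 ^ n) Filter.atTop (nhds 0) := by
    have := tendsto_pow_const_div_const_pow_of_one_lt 4 (r := 2) (by norm_num)
    exact_mod_cast this
  have hc : (0 : ℝ) < 1 / (2 + C + K ^ 2) := by positivity
  obtain ⟨N, hN⟩ := (h1.eventually (gt_mem_nhds hc)).exists_forall_of_atTop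
  refine ⟨N + 2, by omega, ?_⟩
  have h2 := hN (N + 2) (by omega)
  rw [div_lt_div_iff₀ (by positivity) (by positivity), one_mul] at h2
  have h3 : ((N + 2 : ℕ) : ℝ) ^ 4 * (2 + C + K ^ 2) < 2 ^ (N + 2) := h2
  have h4 : (N + 2) ^ 4 * (2 + C + K ^ 2) < 2 ^ (N + 2) := by exact_mod_cast h3
  refine lt_of_le_of_lt ?_ h4
  have hb : 1 ≤ N + 2 := by omega
  clear h4 h3 h2 hN
  generalize N + 2 = b at *
  have e1 : b ≤ b ^ 4 := Nat.le_self_pow (by norm_num) b
  have e2 : 1 ≤ b ^ 4 := Nat.one_le_pow _ _ hb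
  have e3 : b ^ 3 ≤ b ^ 4 := Nat.pow_le_pow_right hb (by norm_num)
  nlinarith [Nat.zero_le C, Nat.zero_le (K ^ 2), Nat.mul_le_mul_right C e1,
    Nat.mul_le_mul_right (K ^ 2) e3]

theorem t_ORD : S_ORD := by
  intro K
  rw [Set.infinite_iff_exists_gt] 
  by_contra hcon
  push Not at hcon
  obtain ⟨N0, hN0⟩ := hcon
  obtain ⟨a, ha, hbig⟩ := big (N0 + 3) K
  have h1 := many a ha
  have hsub : Nat.primesLE (2 ^ a) ⊆ Finset.range (N0 + 3) ∪
      (Finset.Ico 1 (a * K)).biUnion fun j => (2 ^ j - 1).primeFactors := by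
    intro m hm
    have hmp := Nat.prime_of_mem_primesLE hm
    have hmle : m ≤ 2 ^ a := Nat.le_of_mem_primesLE hm
    rw [Finset.mem_union, Finset.mem_range, Finset.mem_biUnion]
    by_cases hm0 : m < N0 + 3
    · exact Or.inl hm0
    · right
      have h2 : ¬ (m ∈ {m : ℕ | m.Prime ∧ m ^ K ≤ 2 ^ (orderOf (2 : ZMod m))}) := by
        intro h
        have := hN0 m h
        omega
      rw [Set.mem_ofPred_eq] at h2
      push Not at h2
      have h3 := h2 hmp
      haveI : Fact m.Prime := ⟨hmp⟩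
      have h20 : (2 : ZMod m) ≠ 0 := by
        intro h
        have : ((2 : ℕ) : ZMod m) = 0 := by exact_mod_cast h
        rw [ZMod.natCast_eq_zero_iff] at this
        have := Nat.le_of_dvd (by norm_num) this
        omega
      have h4 : 0 < orderOf (2 : ZMod m) := by
        refine orderOf_pos_iff.2 ?_
        exact isOfFinOrder_iff_pow_eq_one.2 ⟨m - 1, by have := hmp.two_le; omega,
          ZMod.pow_card_sub_one_eq_one h20⟩
      have h5 : orderOf (2 : ZMod m) < a * K := by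
        have : 2 ^ (orderOf (2 : ZMod m)) < 2 ^ (a * K) := by
          refine h3.trans_le ?_
          rw [pow_mul]
          exact Nat.pow_le_pow_left hmle K
        exact (Nat.pow_lt_pow_iff_right (by norm_num)).1 this
      refine ⟨orderOf (2 : ZMod m), Finset.mem_Ico.2 ⟨h4, h5⟩, ?_⟩
      rw [Nat.mem_primeFactors]
      refine ⟨hmp, ?_, ?_⟩
      · have h6 := pow_orderOf_eq_one (2 : ZMod m)
        have h7 : ((2 ^ (orderOf (2 : ZMod m)) - 1 : ℕ) : ZMod m) = 0 := by
          rw [Nat.cast_sub Nat.one_le_two_pow]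
          push_cast
          rw [h6, sub_self]
        exact (ZMod.natCast_eq_zero_iff _ _).1 h7
      · have : 2 ^ 1 ≤ 2 ^ (orderOf (2 : ZMod m)) := Nat.pow_le_pow_right (by norm_num) h4
        omega
  have h2 := Finset.card_le_card hsub
  have h3 : (Finset.range (N0 + 3) ∪
      (Finset.Ico 1 (a * K)).biUnion fun j => (2 ^ j - 1).primeFactors).card ≤
      (N0 + 3) + (a * K) ^ 2 := by
    refine (Finset.card_union_le _ _).trans ?_
    rw [Finset.card_range]
    refine Nat.add_le_add_left ?_ _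
    refine Finset.card_biUnion_le.trans ?_
    have : ∀ j ∈ Finset.Ico 1 (a * K), (2 ^ j - 1).primeFactors.card ≤ a * K := by
      intro j hj
      rw [Finset.mem_Ico] at hj
      have h5 : 2 ^ 1 ≤ 2 ^ j := Nat.pow_le_pow_right (by norm_num) hj.1
      have h6 := card_pf (2 ^ j - 1) (by omega)
      have h7 : 2 ^ (2 ^ j - 1).primeFactors.card < 2 ^ j := by omega
      have h8 := (Nat.pow_lt_pow_iff_right (by norm_num)).1 h7
      omega
    refine (Finset.sum_le_card_nsmul _ _ _ this).trans ?_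
    rw [Nat.card_Ico, smul_eq_mul, sq]
    exact Nat.mul_le_mul_right _ (by omega)
  have h4 : a * (Nat.primesLE (2 ^ a)).card ≤ a * (N0 + 3 + (a * K) ^ 2) :=
    Nat.mul_le_mul_left _ (h2.trans h3)
  omega

end Pool.Agent.Q24.GT
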